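import Mathlib

/-!
# Long and short edges on complete bipartite graphs: definitions
-/

namespace Pool.Agent.NPC.L7h65.LS

/-- An instance `(V, S, L)`: the list of the vertices (natural numbers), the list of the short
edges and the list of the long edges. A pair `(u, v)` denotes the edge `uv`. -/
abbrev Inst : Type := List ℕ × List (ℕ × ℕ) × List (ℕ × ℕ)

/-- `uv` is a short edge. -/
def Short (G : Inst) (u v : ℕ) : Prop := (u, v) ∈ G.2.1 ∨ (v, u) ∈ G.2.1

/-- `uv` is a long edge. -/
def Long (G : Inst) (u v : ℕ) : Prop := (u, v) ∈ G.2.2 ∨ (v, u) ∈ G.2.2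

/-- `uv` is an edge of the graph. -/
def Adj (G : Inst) (u v : ℕ) : Prop := Short G u v ∨ Long G u v

/-- `(V, S, L)` is a finite simple graph with a partition of the edges into short and long ones:
edges join two distinct vertices, and no edge is both short and long. -/
structure IsInst (G : Inst) : Prop where
  /-- edges join two distinct vertices -/
  ends : ∀ u v, Adj G u v → u ∈ G.1 ∧ v ∈ G.1 ∧ u ≠ v
  /-- no edge is both short and long -/
  disj : ∀ u v, Short G u v → ¬ Long G u v

/-- The underlying graph is a complete bipartite graph `K_{m, n}` with `m, n ≥ 1`: the vertices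
are divided into two nonempty classes (the members of `A` and the others) and two vertices are
adjacent if and only if they belong to different classes. -/
def IsCompleteBipartite (G : Inst) : Prop :=
  ∃ A : Set ℕ, (∃ a ∈ G.1, a ∈ A) ∧ (∃ b ∈ G.1, b ∉ A) ∧
    ∀ u ∈ G.1, ∀ v ∈ G.1, (Adj G u v ↔ (u ∈ A ↔ v ∉ A))

/-- `p` is a (non-degenerate) straight-line drawing in the plane: distinct vertices are placed at
distinct points and no vertex lies in the relative interior of the segment of an edge. -/
structure IsDrawing (G : Inst) (p : ℕ → EuclideanSpace ℝ (Fin 2)) : Prop where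
  /-- distinct points -/
  inj : ∀ u ∈ G.1, ∀ v ∈ G.1, u ≠ v → p u ≠ p v
  /-- no vertex in the relative interior of an edge -/
  avoid : ∀ u v, Adj G u v → ∀ w ∈ G.1, p w ∉ openSegment ℝ (p u) (p v)

/-- Long/short edge realizability: there is a straight-line drawing in which every short edge has
length at most `1` and every long edge has length greater than `1`. -/
def Realizable (G : Inst) : Prop :=
  ∃ p : ℕ → EuclideanSpace ℝ (Fin 2), IsDrawing G p ∧
    (∀ u v, Short G u v → dist (p u) (p v) ≤ 1) ∧ ∀ u v, Long G u v → 1 < dist (p u) (p v)

end Pool.Agent.NPC.L7h65.LS
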