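import Pool.Agent.L7h65.LS.Defs

/-!
# Long and short edges: elementary plane geometry
-/

namespace Pool.Agent.NPC.L7h65.LS

open Filter Topology

/-- The plane. -/
abbrev E2 := EuclideanSpace ℝ (Fin 2)

/-- The orientation determinant. -/
def cr (a b c : E2) : ℝ := (b 0 - a 0) * (c 1 - a 1) - (b 1 - a 1) * (c 0 - a 0)

/-- The inner product of `a - c` and `b - c`. -/
def dt (a b c : E2) : ℝ := (a 0 - c 0) * (b 0 - c 0) + (a 1 - c 1) * (b 1 - c 1)

theorem cr_eq_zero_of_mem {a b c : E2} (h : c ∈ openSegment ℝ a b) : cr a b c = 0 := by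
  obtain ⟨s, t, hs, ht, hst, rfl⟩ := h
  obtain rfl : s = 1 - t := by linarith
  simp only [cr, PiLp.add_apply, PiLp.smul_apply, smul_eq_mul]
  ring

theorem mem_openSegment_iff {a b c : E2} (hab : a ≠ b) :
    c ∈ openSegment ℝ a b ↔ cr a b c = 0 ∧ dt a b c < 0 := by
  have hn : 0 < (b 0 - a 0) ^ 2 + (b 1 - a 1) ^ 2 := by
    by_contra hcon
    have h0 : (b 0 - a 0) ^ 2 + (b 1 - a 1) ^ 2 = 0 := le_antisymm (not_lt.1 hcon) (by positivity)
    have h1 : b 0 - a 0 = 0 := by nlinarith [sq_nonneg (b 0 - a 0), sq_nonneg (b 1 - a 1)]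
    have h2 : b 1 - a 1 = 0 := by nlinarith [sq_nonneg (b 0 - a 0), sq_nonneg (b 1 - a 1)]
    apply hab
    ext i
    fin_cases i
    · simp only [Fin.zero_eta]; linarith
    · simp only [Fin.mk_one]; linarith
  constructor
  · intro h
    refine ⟨cr_eq_zero_of_mem h, ?_⟩
    obtain ⟨s, t, hs, ht, hst, rfl⟩ := h
    obtain rfl : s = 1 - t := by linarith
    simp only [dt, PiLp.add_apply, PiLp.smul_apply, smul_eq_mul]
    have e : (a 0 - ((1 - t) * a 0 + t * b 0)) * (b 0 - ((1 - t) * a 0 + t * b 0)) +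
        (a 1 - ((1 - t) * a 1 + t * b 1)) * (b 1 - ((1 - t) * a 1 + t * b 1)) =
        -((t * (1 - t)) * ((b 0 - a 0) ^ 2 + (b 1 - a 1) ^ 2)) := by ring
    rw [e]
    have := mul_pos (mul_pos ht hs) hn
    linarith
  · rintro ⟨h1, h2⟩
    set n := (b 0 - a 0) ^ 2 + (b 1 - a 1) ^ 2 with hndef
    set t := ((c 0 - a 0) * (b 0 - a 0) + (c 1 - a 1) * (b 1 - a 1)) / n with ht
    have hn0 : n ≠ 0 := hn.ne'
    have htn : t * n = (c 0 - a 0) * (b 0 - a 0) + (c 1 - a 1) * (b 1 - a 1) := by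
      rw [ht]; field_simp
    have e0 : c 0 - a 0 = t * (b 0 - a 0) := by
      have : (c 0 - a 0 - t * (b 0 - a 0)) * n = 0 := by
        have hc : (b 0 - a 0) * (c 1 - a 1) = (b 1 - a 1) * (c 0 - a 0) := by
          unfold cr at h1; linarith
        calc (c 0 - a 0 - t * (b 0 - a 0)) * n = (c 0 - a 0) * n - (t * n) * (b 0 - a 0) := by ring
          _ = (c 0 - a 0) * ((b 0 - a 0) ^ 2 + (b 1 - a 1) ^ 2) -
              ((c 0 - a 0) * (b 0 - a 0) + (c 1 - a 1) * (b 1 - a 1)) * (b 0 - a 0) := by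
            rw [htn]
          _ = (b 1 - a 1) * ((b 1 - a 1) * (c 0 - a 0) - (b 0 - a 0) * (c 1 - a 1)) := by ring
          _ = 0 := by rw [hc]; ring
      rcases mul_eq_zero.1 this with h | h
      · linarith
      · exact absurd h hn0
    have e1 : c 1 - a 1 = t * (b 1 - a 1) := by
      have : (c 1 - a 1 - t * (b 1 - a 1)) * n = 0 := by
        have hc : (b 0 - a 0) * (c 1 - a 1) = (b 1 - a 1) * (c 0 - a 0) := by
          unfold cr at h1; linarith
        calc (c 1 - a 1 - t * (b 1 - a 1)) * n = (c 1 - a 1) * n - (t * n) * (b 1 - a 1) := by ring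
          _ = (c 1 - a 1) * ((b 0 - a 0) ^ 2 + (b 1 - a 1) ^ 2) -
              ((c 0 - a 0) * (b 0 - a 0) + (c 1 - a 1) * (b 1 - a 1)) * (b 1 - a 1) := by
            rw [htn]
          _ = (b 0 - a 0) * ((b 0 - a 0) * (c 1 - a 1) - (b 1 - a 1) * (c 0 - a 0)) := by ring
          _ = 0 := by rw [hc]; ring
      rcases mul_eq_zero.1 this with h | h
      · linarith
      · exact absurd h hn0
    have h3 : dt a b c = -(t * (1 - t) * n) := by
      have f0 : a 0 - c 0 = -(t * (b 0 - a 0)) := by linarith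
      have f1 : a 1 - c 1 = -(t * (b 1 - a 1)) := by linarith
      have g0 : b 0 - c 0 = (1 - t) * (b 0 - a 0) := by linarith
      have g1 : b 1 - c 1 = (1 - t) * (b 1 - a 1) := by linarith
      unfold dt
      rw [f0, f1, g0, g1, hndef]
      ring
    have h4 : 0 < t * (1 - t) := by
      have : 0 < t * (1 - t) * n := by linarith
      exact (pos_iff_pos_of_mul_pos this).2 hn
    have h5 : 0 < t ∧ 0 < 1 - t := by
      rcases mul_pos_iff.1 h4 with h | h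
      · exact h
      · exfalso; linarith [h.1, h.2]
    refine ⟨1 - t, t, h5.2, h5.1, by ring, ?_⟩
    ext i
    fin_cases i
    · simp only [Fin.zero_eta, PiLp.add_apply, PiLp.smul_apply, smul_eq_mul]; linarith
    · simp only [Fin.mk_one, PiLp.add_apply, PiLp.smul_apply, smul_eq_mul]; linarith

theorem dist_sq (a b : E2) : dist a b ^ 2 = (a 0 - b 0) ^ 2 + (a 1 - b 1) ^ 2 := by
  rw [EuclideanSpace.dist_eq, Real.sq_sqrt (by positivity), Fin.sum_univ_two]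
  simp only [Real.dist_eq, sq_abs]

theorem dist_le_one_iff (a b : E2) :
    dist a b ≤ 1 ↔ (a 0 - b 0) ^ 2 + (a 1 - b 1) ^ 2 ≤ 1 := by
  rw [← dist_sq, sq_le_one_iff₀ dist_nonneg]

theorem one_lt_dist_iff (a b : E2) :
    1 < dist a b ↔ 1 < (a 0 - b 0) ^ 2 + (a 1 - b 1) ^ 2 := by
  rw [← not_le, dist_le_one_iff, not_le]

/-! ### General position by a small perturbation -/

/-- A quadratic polynomial with nonzero leading coefficient is nonzero near `0`. -/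
theorem eventually_quad_ne {a b c : ℝ} (hc : c ≠ 0) :
    ∀ᶠ s : ℝ in 𝓝[>] 0, a + b * s + c * s ^ 2 ≠ 0 := by
  by_cases ha : a = 0
  · subst ha
    by_cases hb : b = 0
    · subst hb
      filter_upwards [self_mem_nhdsWithin] with s hs
      have hs' : (0 : ℝ) < s := hs
      have : 0 + 0 * s + c * s ^ 2 = c * s ^ 2 := by ring
      rw [this]
      exact mul_ne_zero hc (pow_ne_zero 2 hs'.ne')
    · have h1 : ∀ᶠ s : ℝ in 𝓝[>] 0, b + c * s ≠ 0 := by
        have hcont : ContinuousAt (fun s : ℝ => b + c * s) 0 := by fun_prop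
        have : ∀ᶠ s : ℝ in 𝓝 0, b + c * s ≠ 0 := hcont.eventually_ne (by simpa using hb)
        exact this.filter_mono nhdsWithin_le_nhds
      filter_upwards [h1, self_mem_nhdsWithin] with s hs hs0
      have hs' : (0 : ℝ) < s := hs0
      have : 0 + b * s + c * s ^ 2 = (b + c * s) * s := by ring
      rw [this]
      exact mul_ne_zero hs hs'.ne'
  · have hcont : ContinuousAt (fun s : ℝ => a + b * s + c * s ^ 2) 0 := by fun_prop
    have : ∀ᶠ s : ℝ in 𝓝 0, a + b * s + c * s ^ 2 ≠ 0 := hcont.eventually_ne (by simpa using ha)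
    exact this.filter_mono nhdsWithin_le_nhds

/-- The perturbed points. -/
noncomputable def mv (P : ℕ → ℝ × ℝ) (s : ℝ) (v : ℕ) : E2 :=
  !₂[(P v).1 + s * v, (P v).2 + s * (v : ℝ) ^ 2]

theorem mv_zero (P : ℕ → ℝ × ℝ) (s : ℝ) (v : ℕ) : mv P s v 0 = (P v).1 + s * v := rfl

theorem mv_one (P : ℕ → ℝ × ℝ) (s : ℝ) (v : ℕ) : mv P s v 1 = (P v).2 + s * (v : ℝ) ^ 2 := rfl

theorem mv_cr (P : ℕ → ℝ × ℝ) {u v w : ℕ} (h1 : u ≠ v) (h2 : u ≠ w) (h3 : v ≠ w) :
    ∀ᶠ s : ℝ in 𝓝[>] 0, cr (mv P s u) (mv P s v) (mv P s w) ≠ 0 := by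
  have hc : (((v : ℝ) - u) * ((w : ℝ) - u) * ((w : ℝ) - v)) ≠ 0 := by
    have e1 : (v : ℝ) - u ≠ 0 := sub_ne_zero.2 (by exact_mod_cast h1.symm)
    have e2 : (w : ℝ) - u ≠ 0 := sub_ne_zero.2 (by exact_mod_cast h2.symm)
    have e3 : (w : ℝ) - v ≠ 0 := sub_ne_zero.2 (by exact_mod_cast h3.symm)
    exact mul_ne_zero (mul_ne_zero e1 e2) e3
  have := eventually_quad_ne (a := ((P v).1 - (P u).1) * ((P w).2 - (P u).2) -
      ((P v).2 - (P u).2) * ((P w).1 - (P u).1))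
    (b := ((P v).1 - (P u).1) * ((w : ℝ) ^ 2 - (u : ℝ) ^ 2) + ((v : ℝ) - u) * ((P w).2 - (P u).2) -
      ((P v).2 - (P u).2) * ((w : ℝ) - u) - ((v : ℝ) ^ 2 - (u : ℝ) ^ 2) * ((P w).1 - (P u).1)) hc
  filter_upwards [this] with s hs
  intro h0
  apply hs
  rw [← h0]
  simp only [cr, mv_zero, mv_one]
  ring

theorem mv_ne (P : ℕ → ℝ × ℝ) {u v : ℕ} (h1 : u ≠ v) :
    ∀ᶠ s : ℝ in 𝓝[>] 0, mv P s u ≠ mv P s v := by
  obtain ⟨w, hw1, hw2⟩ : ∃ w : ℕ, u ≠ w ∧ v ≠ w := ⟨u + v + 1, by omega, by omega⟩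
  filter_upwards [mv_cr P h1 hw1 hw2] with s hs
  intro h0
  apply hs
  rw [← h0]
  simp [cr]

theorem mv_lt (P : ℕ → ℝ × ℝ) {u v : ℕ}
    (h : ((P u).1 - (P v).1) ^ 2 + ((P u).2 - (P v).2) ^ 2 < 1) :
    ∀ᶠ s : ℝ in 𝓝[>] 0, dist (mv P s u) (mv P s v) ≤ 1 := by
  have hcont : ContinuousAt (fun s : ℝ => (((P u).1 + s * u) - ((P v).1 + s * v)) ^ 2 +
    (((P u).2 + s * (u : ℝ) ^ 2) - ((P v).2 + s * (v : ℝ) ^ 2)) ^ 2) 0 := by fun_prop
  have h1 : ∀ᶠ s : ℝ in 𝓝 0, (((P u).1 + s * u) - ((P v).1 + s * v)) ^ 2 +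
      (((P u).2 + s * (u : ℝ) ^ 2) - ((P v).2 + s * (v : ℝ) ^ 2)) ^ 2 < 1 :=
    hcont.eventually_lt continuousAt_const (by simpa using h)
  filter_upwards [h1.filter_mono nhdsWithin_le_nhds] with s hs
  rw [dist_le_one_iff]
  exact hs.le

theorem mv_gt (P : ℕ → ℝ × ℝ) {u v : ℕ}
    (h : 1 < ((P u).1 - (P v).1) ^ 2 + ((P u).2 - (P v).2) ^ 2) :
    ∀ᶠ s : ℝ in 𝓝[>] 0, 1 < dist (mv P s u) (mv P s v) := by
  have hcont : ContinuousAt (fun s : ℝ => (((P u).1 + s * u) - ((P v).1 + s * v)) ^ 2 +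
    (((P u).2 + s * (u : ℝ) ^ 2) - ((P v).2 + s * (v : ℝ) ^ 2)) ^ 2) 0 := by fun_prop
  have h1 : ∀ᶠ s : ℝ in 𝓝 0, 1 < (((P u).1 + s * u) - ((P v).1 + s * v)) ^ 2 +
      (((P u).2 + s * (u : ℝ) ^ 2) - ((P v).2 + s * (v : ℝ) ^ 2)) ^ 2 :=
    continuousAt_const.eventually_lt hcont (by simpa using h)
  filter_upwards [h1.filter_mono nhdsWithin_le_nhds] with s hs
  rw [one_lt_dist_iff]
  exact hs

theorem ev_list {α : Type} (l : List α) {q : α → ℝ → Prop}
    (h : ∀ a ∈ l, ∀ᶠ s : ℝ in 𝓝[>] 0, q a s) : ∀ᶠ s : ℝ in 𝓝[>] 0, ∀ a ∈ l, q a s := by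
  induction l with
  | nil => exact Eventually.of_forall fun s a ha => absurd ha (by simp)
  | cons b l ih =>
    filter_upwards [h b (by simp), ih fun a ha => h a (by simp [ha])] with s h1 h2
    intro a ha
    rcases List.mem_cons.1 ha with rfl | h3
    · exact h1
    · exact h2 a h3

/-- If the short and long edges have lengths strictly less and strictly greater than `1` for some
placement of the vertices then there is a realization. -/
theorem realizable_of_strict {G : Inst} (hG : IsInst G) (P : ℕ → ℝ × ℝ)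
    (hS : ∀ e ∈ G.2.1, ((P e.1).1 - (P e.2).1) ^ 2 + ((P e.1).2 - (P e.2).2) ^ 2 < 1)
    (hL : ∀ e ∈ G.2.2, 1 < ((P e.1).1 - (P e.2).1) ^ 2 + ((P e.1).2 - (P e.2).2) ^ 2) :
    Realizable G := by
  have h1 : ∀ᶠ s : ℝ in 𝓝[>] 0, ∀ u ∈ G.1, ∀ v ∈ G.1, u ≠ v → mv P s u ≠ mv P s v := by
    refine ev_list _ fun u _ => ev_list _ fun v _ => ?_
    by_cases huv : u = v
    · exact Eventually.of_forall fun s h => absurd huv h
    · filter_upwards [mv_ne P huv] with s hs _ using hs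
  have h2 : ∀ᶠ s : ℝ in 𝓝[>] 0, ∀ u ∈ G.1, ∀ v ∈ G.1, ∀ w ∈ G.1, u ≠ v → u ≠ w → v ≠ w →
      cr (mv P s u) (mv P s v) (mv P s w) ≠ 0 := by
    refine ev_list _ fun u _ => ev_list _ fun v _ => ev_list _ fun w _ => ?_
    by_cases huv : u ≠ v ∧ u ≠ w ∧ v ≠ w
    · filter_upwards [mv_cr P huv.1 huv.2.1 huv.2.2] with s hs _ _ _ using hs
    · exact Eventually.of_forall fun s ha hb hc => absurd ⟨ha, hb, hc⟩ huv
  have h3 : ∀ᶠ s : ℝ in 𝓝[>] 0, ∀ e ∈ G.2.1, dist (mv P s e.1) (mv P s e.2) ≤ 1 :=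
    ev_list _ fun e he => mv_lt P (hS e he)
  have h4 : ∀ᶠ s : ℝ in 𝓝[>] 0, ∀ e ∈ G.2.2, 1 < dist (mv P s e.1) (mv P s e.2) :=
    ev_list _ fun e he => mv_gt P (hL e he)
  obtain ⟨s, ⟨h1, h2⟩, h3, h4⟩ := ((h1.and h2).and (h3.and h4)).exists
  refine ⟨mv P s, ⟨h1, fun u v huv w hw hmem => ?_⟩, fun u v huv => ?_, fun u v huv => ?_⟩
  · obtain ⟨hu, hv, hne⟩ := hG.ends u v huv
    by_cases huw : u = w
    · subst huw
      have := (mem_openSegment_iff (h1 u hu v hv hne)).1 hmem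
      simp [dt] at this
    · by_cases hvw : v = w
      · subst hvw
        have := (mem_openSegment_iff (h1 u hu v hv hne)).1 hmem
        simp [dt] at this
      · exact h2 u hu v hv w hw hne huw hvw (cr_eq_zero_of_mem hmem)
  · rcases huv with h | h
    · exact h3 (u, v) h
    · rw [dist_comm]; exact h3 (v, u) h
  · rcases huv with h | h
    · exact h4 (u, v) h
    · rw [dist_comm]; exact h4 (v, u) h

end Pool.Agent.NPC.L7h65.LS
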