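import Pool.Agent.L7h65.LS.Geo
import Pool.Agent.H625R2.BallFin

/-!
# Long and short edges: the reduction from strict sign matrices

A row `i` of the sign matrix is the vertex `3 i`, a column `j` is the pair of vertices `3 j + 1`,
`3 j + 2`. The edge from `3 i` to `3 j + 1` is short (and the one to `3 j + 2` is long) if the entry
is positive, otherwise it is the other way round. The perpendicular bisector of the two points of a
column separates the points of the rows with positive entries from those with negative entries.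
-/

namespace Pool.Agent.NPC.L7h65.LS

open Filter Topology
open Pool.Agent.NPC Pool.Agent.NPC.ER Pool.Agent.NPC.ER.Pat

/-- The vertices. -/
def vts (M : List (List Bool)) : List ℕ :=
  ((List.range M.length).map fun i => 3 * i) ++
    (List.range (wid M)).flatMap fun j => [3 * j + 1, 3 * j + 2]

/-- The short edges. -/
def shE (M : List (List Bool)) : List (ℕ × ℕ) :=
  (List.range M.length).flatMap fun i => (List.range (wid M)).map fun j =>
    (3 * i, if ent M i j = true then 3 * j + 1 else 3 * j + 2)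

/-- The long edges. -/
def loE (M : List (List Bool)) : List (ℕ × ℕ) :=
  (List.range M.length).flatMap fun i => (List.range (wid M)).map fun j =>
    (3 * i, if ent M i j = true then 3 * j + 2 else 3 * j + 1)

/-- The instance of a nonempty matrix. -/
def red0 (M : List (List Bool)) : Inst := (vts M, shE M, loE M)

/-- The instance of a matrix. -/
def red (M : List (List Bool)) : Inst :=
  if M.length = 0 ∨ wid M = 0 then ([0, 1], [(0, 1)], []) else red0 M

theorem mem_vts {M : List (List Bool)} {v : ℕ} : v ∈ vts M ↔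
    (∃ i < M.length, v = 3 * i) ∨ ∃ j < wid M, v = 3 * j + 1 ∨ v = 3 * j + 2 := by
  simp [vts, eq_comm]

theorem mem_shE {M : List (List Bool)} {u v : ℕ} : (u, v) ∈ shE M ↔
    ∃ i < M.length, ∃ j < wid M, u = 3 * i ∧
      v = if ent M i j = true then 3 * j + 1 else 3 * j + 2 := by
  simp only [shE, List.mem_flatMap, List.mem_range, List.mem_map, Prod.mk.injEq]
  constructor
  · rintro ⟨i, hi, j, hj, h1, h2⟩
    exact ⟨i, hi, j, hj, h1.symm, h2.symm⟩
  · rintro ⟨i, hi, j, hj, h1, h2⟩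
    exact ⟨i, hi, j, hj, h1.symm, h2.symm⟩

theorem mem_loE {M : List (List Bool)} {u v : ℕ} : (u, v) ∈ loE M ↔
    ∃ i < M.length, ∃ j < wid M, u = 3 * i ∧
      v = if ent M i j = true then 3 * j + 2 else 3 * j + 1 := by
  simp only [loE, List.mem_flatMap, List.mem_range, List.mem_map, Prod.mk.injEq]
  constructor
  · rintro ⟨i, hi, j, hj, h1, h2⟩
    exact ⟨i, hi, j, hj, h1.symm, h2.symm⟩
  · rintro ⟨i, hi, j, hj, h1, h2⟩
    exact ⟨i, hi, j, hj, h1.symm, h2.symm⟩

/-- The edges of the graph. -/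
theorem adj_red0 {M : List (List Bool)} {u v : ℕ} :
    ((u, v) ∈ shE M ∨ (u, v) ∈ loE M) ↔
      ∃ i < M.length, ∃ j < wid M, u = 3 * i ∧ (v = 3 * j + 1 ∨ v = 3 * j + 2) := by
  rw [mem_shE, mem_loE]
  constructor
  · rintro (⟨i, hi, j, hj, h1, h2⟩ | ⟨i, hi, j, hj, h1, h2⟩)
    · refine ⟨i, hi, j, hj, h1, ?_⟩
      split_ifs at h2 <;> omega
    · refine ⟨i, hi, j, hj, h1, ?_⟩
      split_ifs at h2 <;> omega
  · rintro ⟨i, hi, j, hj, h1, h2⟩
    by_cases he : ent M i j = true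
    · rcases h2 with h2 | h2
      · exact Or.inl ⟨i, hi, j, hj, h1, by rw [if_pos he]; exact h2⟩
      · exact Or.inr ⟨i, hi, j, hj, h1, by rw [if_pos he]; exact h2⟩
    · rcases h2 with h2 | h2
      · exact Or.inr ⟨i, hi, j, hj, h1, by rw [if_neg he]; exact h2⟩
      · exact Or.inl ⟨i, hi, j, hj, h1, by rw [if_neg he]; exact h2⟩

theorem adj_iff {M : List (List Bool)} {u v : ℕ} : Adj (red0 M) u v ↔
    (∃ i < M.length, ∃ j < wid M, u = 3 * i ∧ (v = 3 * j + 1 ∨ v = 3 * j + 2)) ∨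
    (∃ i < M.length, ∃ j < wid M, v = 3 * i ∧ (u = 3 * j + 1 ∨ u = 3 * j + 2)) := by
  rw [← adj_red0, ← adj_red0]
  unfold Adj Short Long red0
  tauto

theorem isInst_red0 (M : List (List Bool)) : IsInst (red0 M) := by
  constructor
  · intro u v h
    rw [adj_iff] at h
    change u ∈ vts M ∧ v ∈ vts M ∧ u ≠ v
    rw [mem_vts, mem_vts]
    rcases h with ⟨i, hi, j, hj, h1, h2⟩ | ⟨i, hi, j, hj, h1, h2⟩
    · exact ⟨Or.inl ⟨i, hi, h1⟩, Or.inr ⟨j, hj, h2⟩, by omega⟩
    · exact ⟨Or.inr ⟨j, hj, h2⟩, Or.inl ⟨i, hi, h1⟩, by omega⟩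
  · intro u v h1 h2
    have key : ∀ u v, (u, v) ∈ shE M → (u, v) ∉ loE M ∧ (v, u) ∉ loE M := by
      intro u v h
      rw [mem_shE] at h
      rw [mem_loE, mem_loE]
      obtain ⟨i, hi, j, hj, h3, h4⟩ := h
      constructor
      · rintro ⟨i', hi', j', hj', h5, h6⟩
        have hii : i = i' := by omega
        subst hii
        have hjj : j = j' := by
          split_ifs at h4 <;> split_ifs at h6 <;> omega
        subst hjj
        split_ifs at h4 <;> split_ifs at h6 <;> omega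
      · rintro ⟨i', hi', j', hj', h5, h6⟩
        split_ifs at h4 <;> split_ifs at h6 <;> omega
    rcases h1 with h1 | h1
    · rcases h2 with h2 | h2
      · exact (key _ _ h1).1 h2
      · exact (key _ _ h1).2 h2
    · rcases h2 with h2 | h2
      · exact (key _ _ h1).2 h2
      · exact (key _ _ h1).1 h2

theorem isCB_red0 {M : List (List Bool)} (h1 : M.length ≠ 0) (h2 : wid M ≠ 0) :
    IsCompleteBipartite (red0 M) := by
  refine ⟨{v | v % 3 = 0}, ⟨0, ?_, rfl⟩, ⟨1, ?_, by simp⟩, ?_⟩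
  · change 0 ∈ vts M
    rw [mem_vts]
    exact Or.inl ⟨0, by omega, rfl⟩
  · change 1 ∈ vts M
    rw [mem_vts]
    exact Or.inr ⟨0, by omega, Or.inl rfl⟩
  · intro u hu v hv
    change u ∈ vts M at hu
    change v ∈ vts M at hv
    rw [mem_vts] at hu hv
    rw [adj_iff, Set.mem_setOf_eq, Set.mem_setOf_eq]
    constructor
    · rintro (⟨i, hi, j, hj, h1, h2⟩ | ⟨i, hi, j, hj, h1, h2⟩) <;> omega
    · intro h
      rcases hu with ⟨i, hi, h1⟩ | ⟨j, hj, h1⟩
      · rcases hv with ⟨i', hi', h2⟩ | ⟨j', hj', h2⟩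
        · omega
        · exact Or.inl ⟨i, hi, j', hj', h1, h2⟩
      · rcases hv with ⟨i', hi', h2⟩ | ⟨j', hj', h2⟩
        · exact Or.inr ⟨i', hi', j, hj, h2, h1⟩
        · omega

/-! ### From a drawing to a realization of the sign matrix -/

theorem SR_of_real {m : ℕ} {M : List (List Bool)} (hM : Rect m M) (h : Realizable (red0 M)) :
    SR 3 M := by
  obtain ⟨p, -, hS, hL⟩ := h
  refine ⟨fun i => ![1, (p (3 * i)) 0, (p (3 * i)) 1], fun j =>
    ![(p (3 * j + 2) 0) ^ 2 + (p (3 * j + 2) 1) ^ 2 - (p (3 * j + 1) 0) ^ 2 - (p (3 * j + 1) 1) ^ 2,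
      2 * (p (3 * j + 1) 0 - p (3 * j + 2) 0), 2 * (p (3 * j + 1) 1 - p (3 * j + 2) 1)], ?_⟩
  intro i hi j hj
  have hjw : j < wid M := by rw [← wid_eq hM hi]; exact hj
  rw [← ent_eq hi hj]
  simp only [dotProduct, Fin.sum_univ_three, Matrix.cons_val_zero, Matrix.cons_val_one,
    Matrix.cons_val_two, Matrix.head_cons, Matrix.tail_cons, Matrix.cons_val]
  by_cases he : ent M i j = true
  · have s1 : dist (p (3 * i)) (p (3 * j + 1)) ≤ 1 :=
      hS _ _ (Or.inl (mem_shE.2 ⟨i, hi, j, hjw, rfl, by rw [if_pos he]⟩))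
    have s2 : 1 < dist (p (3 * i)) (p (3 * j + 2)) :=
      hL _ _ (Or.inl (mem_loE.2 ⟨i, hi, j, hjw, rfl, by rw [if_pos he]⟩))
    rw [dist_le_one_iff] at s1
    rw [one_lt_dist_iff] at s2
    rw [he]
    simp only [sgn, if_true]
    nlinarith
  · have s1 : dist (p (3 * i)) (p (3 * j + 2)) ≤ 1 :=
      hS _ _ (Or.inl (mem_shE.2 ⟨i, hi, j, hjw, rfl, by rw [if_neg he]⟩))
    have s2 : 1 < dist (p (3 * i)) (p (3 * j + 1)) :=
      hL _ _ (Or.inl (mem_loE.2 ⟨i, hi, j, hjw, rfl, by rw [if_neg he]⟩))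
    rw [dist_le_one_iff] at s1
    rw [one_lt_dist_iff] at s2
    rw [Bool.not_eq_true] at he
    rw [he]
    simp only [sgn, Bool.false_eq_true, if_false]
    nlinarith

/-! ### From a realization of the sign matrix to a drawing -/

/-- The placement of the vertices. -/
noncomputable def pl (y η : ℕ → ℕ → ℝ) (c : ℕ → ℝ) (ε : ℝ) (v : ℕ) : ℝ × ℝ :=
  if v % 3 = 0 then (ε * y (v / 3) 0, ε * y (v / 3) 1)
  else if v % 3 = 1 then
    ((1 - ε * (c (v / 3) / √(η (v / 3) 0 ^ 2 + η (v / 3) 1 ^ 2))) *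
        (η (v / 3) 0 / √(η (v / 3) 0 ^ 2 + η (v / 3) 1 ^ 2)),
      (1 - ε * (c (v / 3) / √(η (v / 3) 0 ^ 2 + η (v / 3) 1 ^ 2))) *
        (η (v / 3) 1 / √(η (v / 3) 0 ^ 2 + η (v / 3) 1 ^ 2)))
  else
    (-((1 + ε * (c (v / 3) / √(η (v / 3) 0 ^ 2 + η (v / 3) 1 ^ 2))) *
        (η (v / 3) 0 / √(η (v / 3) 0 ^ 2 + η (v / 3) 1 ^ 2))),
      -((1 + ε * (c (v / 3) / √(η (v / 3) 0 ^ 2 + η (v / 3) 1 ^ 2))) *
        (η (v / 3) 1 / √(η (v / 3) 0 ^ 2 + η (v / 3) 1 ^ 2))))

theorem ev_small {a b : ℝ} (ha : 0 < a) : ∀ᶠ ε : ℝ in 𝓝[>] 0, 1 - 2 * ε * a + ε ^ 2 * b < 1 := by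
  have hc : ContinuousAt (fun ε : ℝ => -2 * a + ε * b) 0 := by fun_prop
  have h1 : ∀ᶠ ε : ℝ in 𝓝 0, -2 * a + ε * b < 0 := hc.eventually_lt continuousAt_const (by simpa)
  filter_upwards [h1.filter_mono nhdsWithin_le_nhds, self_mem_nhdsWithin] with ε h2 h3
  have h3' : (0 : ℝ) < ε := h3
  nlinarith

theorem ev_large {a b : ℝ} (ha : 0 < a) : ∀ᶠ ε : ℝ in 𝓝[>] 0, 1 < 1 + 2 * ε * a + ε ^ 2 * b := by
  have hc : ContinuousAt (fun ε : ℝ => 2 * a + ε * b) 0 := by fun_prop
  have h1 : ∀ᶠ ε : ℝ in 𝓝 0, 0 < 2 * a + ε * b := continuousAt_const.eventually_lt hc (by simpa)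
  filter_upwards [h1.filter_mono nhdsWithin_le_nhds, self_mem_nhdsWithin] with ε h2 h3
  have h3' : (0 : ℝ) < ε := h3
  nlinarith

theorem real_of_SRN {m : ℕ} {M : List (List Bool)} (hM : Rect m M) (h : SRN 2 M) :
    Realizable (red0 M) := by
  obtain ⟨y, η, c, hη, hy⟩ := h
  -- normalised data
  set N : ℕ → ℝ := fun j => √(η j 0 ^ 2 + η j 1 ^ 2) with hN
  have hNpos : ∀ j, 0 < N j := fun j => Real.sqrt_pos.2 (by have := hη j; positivity)
  have hNsq : ∀ j, N j ^ 2 = η j 0 ^ 2 + η j 1 ^ 2 := fun j => Real.sq_sqrt (by positivity)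
  have hunit : ∀ j, (η j 0 / N j) ^ 2 + (η j 1 / N j) ^ 2 = 1 := by
    intro j
    have := (hNpos j).ne'
    field_simp
    exact (hNsq j).symm
  -- squared distances
  have key1 : ∀ ε i j, ((pl y η c ε (3 * i)).1 - (pl y η c ε (3 * j + 1)).1) ^ 2 +
      ((pl y η c ε (3 * i)).2 - (pl y η c ε (3 * j + 1)).2) ^ 2 =
      1 - 2 * ε * (c j / N j + (y i 0 * (η j 0 / N j) + y i 1 * (η j 1 / N j))) +
      ε ^ 2 * (y i 0 ^ 2 + y i 1 ^ 2 + (c j / N j) ^ 2 +
        2 * (c j / N j) * (y i 0 * (η j 0 / N j) + y i 1 * (η j 1 / N j))) := by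
    intro ε i j
    have e1 : 3 * i % 3 = 0 := by omega
    have e2 : 3 * i / 3 = i := by omega
    have e3 : (3 * j + 1) % 3 = 1 := by omega
    have e4 : (3 * j + 1) / 3 = j := by omega
    simp only [pl, e1, e2, e3, e4, if_true, one_ne_zero, if_false]
    have hu := hunit j
    simp only [hN] at hu ⊢
    linear_combination (1 - ε * (c j / √(η j 0 ^ 2 + η j 1 ^ 2))) ^ 2 * hu
  have key2 : ∀ ε i j, ((pl y η c ε (3 * i)).1 - (pl y η c ε (3 * j + 2)).1) ^ 2 +
      ((pl y η c ε (3 * i)).2 - (pl y η c ε (3 * j + 2)).2) ^ 2 =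
      1 + 2 * ε * (c j / N j + (y i 0 * (η j 0 / N j) + y i 1 * (η j 1 / N j))) +
      ε ^ 2 * (y i 0 ^ 2 + y i 1 ^ 2 + (c j / N j) ^ 2 +
        2 * (c j / N j) * (y i 0 * (η j 0 / N j) + y i 1 * (η j 1 / N j))) := by
    intro ε i j
    have e1 : 3 * i % 3 = 0 := by omega
    have e2 : 3 * i / 3 = i := by omega
    have e3 : (3 * j + 2) % 3 = 2 := by omega
    have e4 : (3 * j + 2) / 3 = j := by omega
    simp only [pl, e1, e2, e3, e4, if_true, if_false, OfNat.ofNat_ne_zero, OfNat.ofNat_ne_one]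
    have hu := hunit j
    simp only [hN] at hu ⊢
    linear_combination (1 + ε * (c j / √(η j 0 ^ 2 + η j 1 ^ 2))) ^ 2 * hu
  -- the signs
  have hsg : ∀ i < M.length, ∀ j < wid M, 0 < sgn (ent M i j) *
      (c j / N j + (y i 0 * (η j 0 / N j) + y i 1 * (η j 1 / N j))) := by
    intro i hi j hj
    have hj' : j < M[i].length := by rw [wid_eq hM hi]; exact hj
    have h1 := hy i hi j hj'
    rw [← ent_eq hi hj', Finset.sum_range_succ, Finset.sum_range_one] at h1
    have h2 : sgn (ent M i j) * (c j / N j + (y i 0 * (η j 0 / N j) + y i 1 * (η j 1 / N j))) =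
        sgn (ent M i j) * (c j + (y i 0 * η j 0 + y i 1 * η j 1)) / N j := by
      field_simp
    rw [h2]
    exact div_pos h1 (hNpos j)
  have hev : ∀ᶠ ε : ℝ in 𝓝[>] 0, ∀ i ∈ List.range M.length, ∀ j ∈ List.range (wid M),
      (((pl y η c ε (3 * i)).1 - (pl y η c ε (if ent M i j = true then 3 * j + 1
        else 3 * j + 2)).1) ^ 2 + ((pl y η c ε (3 * i)).2 - (pl y η c ε (if ent M i j = true
        then 3 * j + 1 else 3 * j + 2)).2) ^ 2 < 1 ∧
      1 < ((pl y η c ε (3 * i)).1 - (pl y η c ε (if ent M i j = true then 3 * j + 2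
        else 3 * j + 1)).1) ^ 2 + ((pl y η c ε (3 * i)).2 - (pl y η c ε (if ent M i j = true
        then 3 * j + 2 else 3 * j + 1)).2) ^ 2) := by
    refine ev_list _ fun i hi => ev_list _ fun j hj => ?_
    have h1 := hsg i (List.mem_range.1 hi) j (List.mem_range.1 hj)
    by_cases he : ent M i j = true
    · rw [he] at h1
      simp only [sgn, if_true, one_mul] at h1
      simp only [if_pos he]
      filter_upwards [ev_small (b := y i 0 ^ 2 + y i 1 ^ 2 + (c j / N j) ^ 2 +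
        2 * (c j / N j) * (y i 0 * (η j 0 / N j) + y i 1 * (η j 1 / N j))) h1,
        ev_large (b := y i 0 ^ 2 + y i 1 ^ 2 + (c j / N j) ^ 2 +
        2 * (c j / N j) * (y i 0 * (η j 0 / N j) + y i 1 * (η j 1 / N j))) h1] with ε h2 h3
      rw [key1, key2]
      exact ⟨h2, h3⟩
    · rw [Bool.not_eq_true] at he
      rw [he] at h1
      simp only [sgn, Bool.false_eq_true, if_false, neg_mul, one_mul] at h1
      simp only [he, Bool.false_eq_true, if_false]
      filter_upwards [ev_small (b := y i 0 ^ 2 + y i 1 ^ 2 + (c j / N j) ^ 2 +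
        2 * (c j / N j) * (y i 0 * (η j 0 / N j) + y i 1 * (η j 1 / N j))) h1,
        ev_large (b := y i 0 ^ 2 + y i 1 ^ 2 + (c j / N j) ^ 2 +
        2 * (c j / N j) * (y i 0 * (η j 0 / N j) + y i 1 * (η j 1 / N j))) h1] with ε h2 h3
      rw [key1, key2]
      constructor
      · linarith
      · linarith
  obtain ⟨ε, hε⟩ := hev.exists
  refine realizable_of_strict (isInst_red0 M) (pl y η c ε) ?_ ?_
  · rintro ⟨u, v⟩ he
    obtain ⟨i, hi, j, hj, rfl, rfl⟩ := mem_shE.1 he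
    exact (hε i (List.mem_range.2 hi) j (List.mem_range.2 hj)).1
  · rintro ⟨u, v⟩ he
    obtain ⟨i, hi, j, hj, rfl, rfl⟩ := mem_loE.1 he
    exact (hε i (List.mem_range.2 hi) j (List.mem_range.2 hj)).2

end Pool.Agent.NPC.L7h65.LS
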