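import Pool.Agent.L7h65.LS.Mem
import Pool.Agent.L7h65.LS.Red

/-!
# Long and short edges on complete bipartite graphs: completeness
-/

namespace Pool.Agent.NPC.L7h65.LS

open Pool.Agent.NPC Pool.Agent.NPC.ER Pool.Agent.NPC.ER.Pat

theorem poly_three {α : Type} [TEnc α] {n : α → ℕ} (hn : Poly n) (t : ℕ) :
    Poly (fun a => 3 * n a + t) :=
  Poly.add (Poly.mul (Poly.const 3) hn) (Poly.const t)

theorem poly_vts : Poly vts := by
  refine Poly.append (Poly.map (F := fun _ (i : ℕ) => 3 * i) (Poly.range_length Poly.id)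
    (Poly.mul (Poly.const 3) (Poly.snd Poly.id))) (Poly.flatMap
    (F := fun _ (j : ℕ) => [3 * j + 1, 3 * j + 2]) (upoly_wid Poly.id).range ?_)
  exact Poly.cons (poly_three (Poly.snd Poly.id) 1) (Poly.cons (poly_three (Poly.snd Poly.id) 2)
    (Poly.const []))

theorem poly_edges (a b : ℕ) : Poly (fun M : List (List Bool) =>
    (List.range M.length).flatMap fun i => (List.range (wid M)).map fun j =>
      (3 * i, if ent M i j = true then 3 * j + a else 3 * j + b)) := by
  refine Poly.flatMap (F := fun (M : List (List Bool)) (i : ℕ) => (List.range (wid M)).map fun j =>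
      (3 * i, if ent M i j = true then 3 * j + a else 3 * j + b)) (Poly.range_length Poly.id) ?_
  refine Poly.map (F := fun (p : List (List Bool) × ℕ) (j : ℕ) =>
    (3 * p.2, if ent p.1 p.2 j = true then 3 * j + a else 3 * j + b))
    (upoly_wid (Poly.fst Poly.id)).range ?_
  have hM : Poly (fun q : (List (List Bool) × ℕ) × ℕ => q.1.1) := Poly.fst (Poly.fst Poly.id)
  have hi : Poly (fun q : (List (List Bool) × ℕ) × ℕ => q.1.2) := Poly.snd (Poly.fst Poly.id)
  have hj : Poly (fun q : (List (List Bool) × ℕ) × ℕ => q.2) := Poly.snd Poly.id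
  exact Poly.pair (Poly.mul (Poly.const 3) hi)
    (Poly.ite (Poly.decide_bool (poly_ent hM hi hj)) (poly_three hj a) (poly_three hj b))

theorem poly_red : Poly red := by
  have h0 : Poly red0 := Poly.pair poly_vts (Poly.pair (poly_edges 1 2) (poly_edges 2 1))
  unfold red
  exact Poly.ite (Poly.decide_or (Poly.decide_eq (Poly.length Poly.id) (Poly.const 0))
    (Poly.decide_eq (upoly_wid Poly.id).toPoly (Poly.const 0))) (Poly.const _) h0

theorem triv_inst : IsInst (([0, 1], [(0, 1)], []) : Inst) := by
  rw [← instT_iff]; rfl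

theorem triv_cb : IsCompleteBipartite (([0, 1], [(0, 1)], []) : Inst) := by
  rw [← cbT_iff triv_inst]; rfl

theorem triv_real : Realizable (([0, 1], [(0, 1)], []) : Inst) := by
  refine realizable_of_strict triv_inst (fun _ => (0, 0)) ?_ ?_
  · intro e _; norm_num
  · intro e he; exact absurd he (by simp)

theorem ls_hard {patOf : List Con → Pat} (h : IsPatOf patOf) :
    ERHard (lang fun G : Inst => IsInst G ∧ IsCompleteBipartite G ∧ Realizable G) := by
  refine ERHard.of_sys (f := fun S => red (matOf patOf 0 S))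
    (poly_red.comp (h.poly_matOf 0)) fun S => ?_
  obtain ⟨m, hm⟩ := rect_matOf patOf 0 S
  set M := matOf patOf 0 S with hMdef
  by_cases h0 : M.length = 0 ∨ wid M = 0
  · have e : red M = ([0, 1], [(0, 1)], []) := by rw [red, if_pos h0]
    rw [e]
    refine ⟨fun _ => ⟨triv_inst, triv_cb, triv_real⟩, fun _ => h.sat (k := 0) ?_⟩
    refine ⟨fun _ => 0, fun _ => 0, fun i hi j hj => ?_⟩
    exfalso
    rcases h0 with h0 | h0
    · rw [← hMdef, h0] at hi; omega
    · have hi' : i < M.length := hi
      have := wid_eq hm hi'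
      rw [h0] at this
      have hj' : j < M[i].length := hj
      omega
  · push Not at h0
    have e : red M = red0 M := by
      rw [red, if_neg]; push Not; exact h0
    rw [e]
    constructor
    · intro hS
      exact ⟨isInst_red0 M, isCB_red0 h0.1 h0.2, real_of_SRN hm (h.srn (k := 0) hS)⟩
    · rintro ⟨-, -, hS⟩
      exact h.sat (k := 0) (SR_of_real hm hS)

end Pool.Agent.NPC.L7h65.LS
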