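import Pool.Agent.L7h65.LS.Geo
import Pool.Agent.H606R2.GPP.Member

/-!
# Long and short edges: membership in `∃ℝ`
-/

namespace Pool.Agent.NPC.L7h65.LS

open Pool.Agent.NPC Pool.Agent.NPC.ER
open Pool.Agent.NPC.H670R2 (ff tt conj holds_ff holds_tt holds_conj poly_conj poly_tvar poly_tadd
  poly_tmul poly_tneg poly_eq poly_lt poly_not poly_and poly_or poly_le not_etr_ff)
open Pool.Agent.NPC.ER.GPP (subT dT neF poly_subT poly_dT poly_neF poly_two)

/-- The point with coordinates `x (2 v), x (2 v + 1)`. -/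
noncomputable def ex (x : ℕ → ℝ) (v : ℕ) : E2 := !₂[x (2 * v), x (2 * v + 1)]

theorem ex_zero (x : ℕ → ℝ) (v : ℕ) : ex x v 0 = x (2 * v) := rfl

theorem ex_one (x : ℕ → ℝ) (v : ℕ) : ex x v 1 = x (2 * v + 1) := rfl

theorem eval_dT (x : ℕ → ℝ) (p q r : ℕ) : (dT p q r).eval x = cr (ex x p) (ex x q) (ex x r) := by
  simp only [dT, subT, Tm.eval, cr, ex_zero, ex_one]
  ring

theorem holds_neF (x : ℕ → ℝ) (u v : ℕ) : (neF u v).Holds x ↔ ex x u ≠ ex x v := by
  simp only [neF, Fm.Holds, Tm.eval, ne_eq]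
  refine not_congr ⟨fun h => ?_, fun h => ?_⟩
  · ext i
    fin_cases i
    · exact h.1
    · exact h.2
  · exact ⟨congrArg (fun p : E2 => p 0) h, congrArg (fun p : E2 => p 1) h⟩

/-- The point `w` is not in the relative interior of the segment `uv`. -/
def avF (u v w : ℕ) : Fm :=
  Fm.not (Fm.and (Fm.eq (dT u v w) Tm.zero)
    (Fm.lt (Tm.add (Tm.mul (subT (2 * u) (2 * w)) (subT (2 * v) (2 * w)))
      (Tm.mul (subT (2 * u + 1) (2 * w + 1)) (subT (2 * v + 1) (2 * w + 1)))) Tm.zero))

theorem holds_avF (x : ℕ → ℝ) {u v w : ℕ} (h : ex x u ≠ ex x v) :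
    (avF u v w).Holds x ↔ ex x w ∉ openSegment ℝ (ex x u) (ex x v) := by
  rw [mem_openSegment_iff h]
  simp only [avF, Fm.Holds, eval_dT, Tm.eval, subT, dt, ex_zero, ex_one]
  simp only [← sub_eq_add_neg]

/-- The square of the distance of two points. -/
def sqT (u v : ℕ) : Tm :=
  Tm.add (Tm.mul (subT (2 * u) (2 * v)) (subT (2 * u) (2 * v)))
    (Tm.mul (subT (2 * u + 1) (2 * v + 1)) (subT (2 * u + 1) (2 * v + 1)))

theorem eval_sqT (x : ℕ → ℝ) (u v : ℕ) :
    (sqT u v).eval x = (ex x u 0 - ex x v 0) ^ 2 + (ex x u 1 - ex x v 1) ^ 2 := by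
  simp only [sqT, subT, Tm.eval, ex_zero, ex_one]
  ring

/-- The list of conditions. -/
def conds (G : Inst) : List Fm :=
  (G.1.flatMap fun u => G.1.map fun v => if u = v then tt else neF u v) ++
  (((G.2.1 ++ G.2.2).flatMap fun e => G.1.map fun w => avF e.1 e.2 w) ++
  ((G.2.1.map fun e => Fm.le (sqT e.1 e.2) Tm.one) ++
    (G.2.2.map fun e => Fm.lt Tm.one (sqT e.1 e.2))))

theorem conds_iff {G : Inst} (hG : IsInst G) (x : ℕ → ℝ) : (∀ φ ∈ conds G, φ.Holds x) ↔
    IsDrawing G (ex x) ∧ (∀ u v, Short G u v → dist (ex x u) (ex x v) ≤ 1) ∧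
      ∀ u v, Long G u v → 1 < dist (ex x u) (ex x v) := by
  unfold conds
  constructor
  · intro h
    have hinj : ∀ u ∈ G.1, ∀ v ∈ G.1, u ≠ v → ex x u ≠ ex x v := by
      intro u hu v hv hne
      have := h _ (List.mem_append.2 (Or.inl
        (List.mem_flatMap.2 ⟨u, hu, List.mem_map.2 ⟨v, hv, rfl⟩⟩)))
      rwa [if_neg hne, holds_neF] at this
    have hS : ∀ u v, (u, v) ∈ G.2.1 → dist (ex x u) (ex x v) ≤ 1 := by
      intro u v he
      have := h _ (List.mem_append.2 (Or.inr (List.mem_append.2 (Or.inr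
        (List.mem_append.2 (Or.inl (List.mem_map.2 ⟨(u, v), he, rfl⟩)))))))
      rw [dist_le_one_iff, ← eval_sqT]
      exact this
    have hL : ∀ u v, (u, v) ∈ G.2.2 → 1 < dist (ex x u) (ex x v) := by
      intro u v he
      have := h _ (List.mem_append.2 (Or.inr (List.mem_append.2 (Or.inr
        (List.mem_append.2 (Or.inr (List.mem_map.2 ⟨(u, v), he, rfl⟩)))))))
      rw [one_lt_dist_iff, ← eval_sqT]
      exact this
    have hA : ∀ u v, (u, v) ∈ G.2.1 ++ G.2.2 → ∀ w ∈ G.1,
        ex x w ∉ openSegment ℝ (ex x u) (ex x v) := by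
      intro u v he w hw
      have huv : Adj G u v := by
        rcases List.mem_append.1 he with h1 | h1
        · exact Or.inl (Or.inl h1)
        · exact Or.inr (Or.inl h1)
      obtain ⟨hu, hv, hne⟩ := hG.ends u v huv
      have := h _ (List.mem_append.2 (Or.inr (List.mem_append.2 (Or.inl
        (List.mem_flatMap.2 ⟨(u, v), he, List.mem_map.2 ⟨w, hw, rfl⟩⟩)))))
      rwa [holds_avF x (hinj u hu v hv hne)] at this
    refine ⟨⟨hinj, ?_⟩, ?_, ?_⟩
    · rintro u v ((h1 | h1) | (h1 | h1)) w hw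
      · exact hA u v (List.mem_append.2 (Or.inl h1)) w hw
      · rw [openSegment_symm]
        exact hA v u (List.mem_append.2 (Or.inl h1)) w hw
      · exact hA u v (List.mem_append.2 (Or.inr h1)) w hw
      · rw [openSegment_symm]
        exact hA v u (List.mem_append.2 (Or.inr h1)) w hw
    · rintro u v (h1 | h1)
      · exact hS u v h1
      · rw [dist_comm]; exact hS v u h1
    · rintro u v (h1 | h1)
      · exact hL u v h1
      · rw [dist_comm]; exact hL v u h1
  · rintro ⟨hd, h2, h3⟩ φ hφ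
    rw [List.mem_append, List.mem_append, List.mem_append, List.mem_flatMap, List.mem_flatMap,
      List.mem_map, List.mem_map] at hφ
    rcases hφ with ⟨u, hu, hφ⟩ | ⟨e, he, hφ⟩ | ⟨e, he, rfl⟩ | ⟨e, he, rfl⟩
    · obtain ⟨v, hv, rfl⟩ := List.mem_map.1 hφ
      split_ifs with h
      · exact holds_tt x
      · rw [holds_neF]
        exact hd.inj u hu v hv h
    · obtain ⟨w, hw, rfl⟩ := List.mem_map.1 hφ
      have huv : Adj G e.1 e.2 := by
        rcases List.mem_append.1 he with h1 | h1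
        · exact Or.inl (Or.inl h1)
        · exact Or.inr (Or.inl h1)
      obtain ⟨hu, hv, hne⟩ := hG.ends _ _ huv
      rw [holds_avF x (hd.inj _ hu _ hv hne)]
      exact hd.avoid _ _ huv w hw
    · have := h2 e.1 e.2 (Or.inl he)
      rw [dist_le_one_iff, ← eval_sqT] at this
      exact this
    · have := h3 e.1 e.2 (Or.inl he)
      rw [one_lt_dist_iff, ← eval_sqT] at this
      exact this

/-! ### The syntactic conditions -/

/-- The test for adjacency. -/
def adjT (G : Inst) (u v : ℕ) : Bool :=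
  (decide ((u, v) ∈ G.2.1) || decide ((v, u) ∈ G.2.1)) ||
    (decide ((u, v) ∈ G.2.2) || decide ((v, u) ∈ G.2.2))

theorem adjT_iff (G : Inst) (u v : ℕ) : adjT G u v = true ↔ Adj G u v := by
  simp only [adjT, Adj, Short, Long, Bool.or_eq_true, decide_eq_true_eq]

/-- The test for instances. -/
def instT (G : Inst) : Bool :=
  ((G.2.1 ++ G.2.2).all fun e =>
    (decide (e.1 ∈ G.1) && decide (e.2 ∈ G.1)) && !decide (e.1 = e.2)) &&
    G.2.1.all fun e => !decide ((e.1, e.2) ∈ G.2.2) && !decide ((e.2, e.1) ∈ G.2.2)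

theorem instT_iff (G : Inst) : instT G = true ↔ IsInst G := by
  unfold instT
  simp only [Bool.and_eq_true, List.all_eq_true, decide_eq_true_eq, Bool.not_eq_true',
    decide_eq_false_iff_not]
  constructor
  · rintro ⟨h1, h2⟩
    constructor
    · rintro u v ((h | h) | (h | h))
      · have := h1 (u, v) (List.mem_append.2 (Or.inl h)); exact ⟨this.1.1, this.1.2, this.2⟩
      · have := h1 (v, u) (List.mem_append.2 (Or.inl h)); exact ⟨this.1.2, this.1.1, Ne.symm this.2⟩
      · have := h1 (u, v) (List.mem_append.2 (Or.inr h)); exact ⟨this.1.1, this.1.2, this.2⟩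
      · have := h1 (v, u) (List.mem_append.2 (Or.inr h)); exact ⟨this.1.2, this.1.1, Ne.symm this.2⟩
    · rintro u v (h | h) (h' | h')
      · exact (h2 _ h).1 h'
      · exact (h2 _ h).2 h'
      · exact (h2 _ h).2 h'
      · exact (h2 _ h).1 h'
  · intro h
    constructor
    · intro e he
      have huv : Adj G e.1 e.2 := by
        rcases List.mem_append.1 he with h1 | h1
        · exact Or.inl (Or.inl h1)
        · exact Or.inr (Or.inl h1)
      obtain ⟨a, b, c⟩ := h.ends _ _ huv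
      exact ⟨⟨a, b⟩, c⟩
    · intro e he
      have := h.disj e.1 e.2 (Or.inl he)
      unfold Long at this
      push Not at this
      exact this

/-- The test for complete bipartite graphs, with a base vertex. -/
def cbT0 (G : Inst) (v : ℕ) : Bool :=
  (G.1.any fun w => adjT G v w) && G.1.all fun u => G.1.all fun w =>
    !(adjT G u w ^^ (adjT G v u ^^ adjT G v w))

/-- The test for complete bipartite graphs. -/
def cbT (G : Inst) : Bool :=
  match G.1.head? with
  | none => false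
  | some v => cbT0 G v

theorem cbT0_iff {G : Inst} (hG : IsInst G) {v : ℕ} (hv : v ∈ G.1) :
    cbT0 G v = true ↔ IsCompleteBipartite G := by
  have hirr : ∀ u, ¬ Adj G u u := fun u h => (hG.ends u u h).2.2 rfl
  have hsymm : ∀ u w, Adj G u w → Adj G w u := by
    rintro u w ((h | h) | (h | h))
    · exact Or.inl (Or.inr h)
    · exact Or.inl (Or.inl h)
    · exact Or.inr (Or.inr h)
    · exact Or.inr (Or.inl h)
  have key : ∀ a b c : Bool, (!(a ^^ (b ^^ c))) = true ↔ (a = true ↔ (b = true ↔ ¬ c = true)) := by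
    decide
  unfold cbT0
  simp only [Bool.and_eq_true, List.any_eq_true, List.all_eq_true, key, adjT_iff]
  constructor
  · rintro ⟨⟨w, hw, hvw⟩, h⟩
    refine ⟨{u | ¬ Adj G v u}, ⟨v, hv, hirr v⟩, ⟨w, hw, fun h1 => h1 hvw⟩, fun a ha b hb => ?_⟩
    have := h a ha b hb
    change Adj G a b ↔ (¬ Adj G v a ↔ ¬ ¬ Adj G v b)
    rw [this]
    by_cases h1 : Adj G v a <;> by_cases h2 : Adj G v b <;> simp [h1, h2]
  · rintro ⟨A, ⟨a, ha, haA⟩, ⟨b, hb, hbA⟩, h⟩
    constructor
    · by_cases hvA : v ∈ A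
      · exact ⟨b, hb, (h v hv b hb).2 ⟨fun _ => hbA, fun _ => hvA⟩⟩
      · exact ⟨a, ha, (h v hv a ha).2 ⟨fun h1 => absurd h1 hvA, fun h1 => absurd haA h1⟩⟩
    · intro u hu w hw
      rw [h u hu w hw, h v hv u hu, h v hv w hw]
      by_cases h1 : v ∈ A <;> by_cases h2 : u ∈ A <;> by_cases h3 : w ∈ A <;> simp [h1, h2, h3]

theorem cbT_iff {G : Inst} (hG : IsInst G) : cbT G = true ↔ IsCompleteBipartite G := by
  unfold cbT
  cases hh : G.1.head? with
  | none =>
    have h0 : G.1 = [] := List.head?_eq_none_iff.1 hh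
    constructor
    · intro h; exact absurd h (by simp)
    · rintro ⟨A, ⟨a, ha, -⟩, -⟩
      rw [h0] at ha
      exact absurd ha (by simp)
  | some v => exact cbT0_iff hG (List.mem_of_mem_head? hh)

/-- The existential sentence. -/
def form (G : Inst) : Fm := if (instT G && cbT G) = true then conj (conds G) else ff

theorem form_correct (G : Inst) :
    (IsInst G ∧ IsCompleteBipartite G ∧ Realizable G) ↔ ETR (form G) := by
  unfold form
  split_ifs with h
  · rw [Bool.and_eq_true, instT_iff] at h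
    obtain ⟨h0, h1⟩ := h
    rw [cbT_iff h0] at h1
    unfold ETR Realizable
    simp only [holds_conj, conds_iff h0]
    constructor
    · rintro ⟨-, -, p, hp⟩
      refine ⟨fun n => if n % 2 = 0 then p (n / 2) 0 else p (n / 2) 1, ?_⟩
      have hv : ex (fun n => if n % 2 = 0 then p (n / 2) 0 else p (n / 2) 1) = p := by
        funext v
        have e1 : 2 * v % 2 = 0 := by omega
        have e2 : (2 * v + 1) % 2 = 1 := by omega
        have e3 : 2 * v / 2 = v := by omega
        have e4 : (2 * v + 1) / 2 = v := by omega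
        ext i
        fin_cases i
        · change (if 2 * v % 2 = 0 then p (2 * v / 2) 0 else p (2 * v / 2) 1) = p v 0
          rw [if_pos e1, e3]
        · change (if (2 * v + 1) % 2 = 0 then p ((2 * v + 1) / 2) 0
            else p ((2 * v + 1) / 2) 1) = p v 1
          rw [if_neg (by omega), e4]
      rw [hv]
      exact hp
    · rintro ⟨x, hx⟩
      exact ⟨h0, h1, ex x, hx⟩
  · constructor
    · rintro ⟨h1, h2, -⟩
      exact absurd (by rw [Bool.and_eq_true, instT_iff, cbT_iff h1]; exact ⟨h1, h2⟩) h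
    · intro h1
      exact absurd h1 not_etr_ff

/-! ### Polynomial time -/

section

variable {α : Type} [TEnc α]

theorem poly_avF {u v w : α → ℕ} (hu : Poly u) (hv : Poly v) (hw : Poly w) :
    Poly (fun a => avF (u a) (v a) (w a)) :=
  poly_not (poly_and (poly_eq (poly_dT hu hv hw) (Poly.const _))
    (poly_lt (poly_tadd (poly_tmul (poly_subT (poly_two hu) (poly_two hw))
      (poly_subT (poly_two hv) (poly_two hw)))
      (poly_tmul (poly_subT (Poly.succ (poly_two hu)) (Poly.succ (poly_two hw)))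
        (poly_subT (Poly.succ (poly_two hv)) (Poly.succ (poly_two hw))))) (Poly.const _)))

theorem poly_sqT {u v : α → ℕ} (hu : Poly u) (hv : Poly v) :
    Poly (fun a => sqT (u a) (v a)) :=
  poly_tadd (poly_tmul (poly_subT (poly_two hu) (poly_two hv))
    (poly_subT (poly_two hu) (poly_two hv)))
    (poly_tmul (poly_subT (Poly.succ (poly_two hu)) (Poly.succ (poly_two hv)))
      (poly_subT (Poly.succ (poly_two hu)) (Poly.succ (poly_two hv))))

theorem poly_conds : Poly conds := by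
  have hV : Poly (fun G : Inst => G.1) := Poly.fst Poly.id
  have hS : Poly (fun G : Inst => G.2.1) := Poly.fst (Poly.snd Poly.id)
  have hL : Poly (fun G : Inst => G.2.2) := Poly.snd (Poly.snd Poly.id)
  refine Poly.append ?_ (Poly.append ?_ (Poly.append ?_ ?_))
  · refine Poly.flatMap (F := fun (G : Inst) (u : ℕ) => G.1.map fun v =>
      if u = v then tt else neF u v) hV ?_
    refine Poly.map (F := fun (p : Inst × ℕ) (v : ℕ) => if p.2 = v then tt else neF p.2 v)
      (hV.comp (Poly.fst Poly.id)) ?_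
    exact Poly.ite (Poly.decide_eq (Poly.snd (Poly.fst Poly.id)) (Poly.snd Poly.id))
      (Poly.const _) (poly_neF (Poly.snd (Poly.fst Poly.id)) (Poly.snd Poly.id))
  · refine Poly.flatMap (F := fun (G : Inst) (e : ℕ × ℕ) => G.1.map fun w => avF e.1 e.2 w)
      (Poly.append hS hL) ?_
    refine Poly.map (F := fun (p : Inst × ℕ × ℕ) (w : ℕ) => avF p.2.1 p.2.2 w)
      (hV.comp (Poly.fst Poly.id)) ?_
    exact poly_avF (Poly.fst (Poly.snd (Poly.fst Poly.id)))
      (Poly.snd (Poly.snd (Poly.fst Poly.id))) (Poly.snd Poly.id)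
  · refine Poly.map (F := fun (_ : Inst) (e : ℕ × ℕ) => Fm.le (sqT e.1 e.2) Tm.one) hS ?_
    exact poly_le (poly_sqT (Poly.fst (Poly.snd Poly.id)) (Poly.snd (Poly.snd Poly.id)))
      (Poly.const _)
  · refine Poly.map (F := fun (_ : Inst) (e : ℕ × ℕ) => Fm.lt Tm.one (sqT e.1 e.2)) hL ?_
    exact poly_lt (Poly.const _)
      (poly_sqT (Poly.fst (Poly.snd Poly.id)) (Poly.snd (Poly.snd Poly.id)))

theorem poly_adjT {G : α → Inst} {u v : α → ℕ} (hG : Poly G) (hu : Poly u) (hv : Poly v) :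
    Poly (fun a => adjT (G a) (u a) (v a)) := by
  have h1 : Poly (fun a => (G a).2.1) := Poly.fst (Poly.snd hG)
  have h2 : Poly (fun a => (G a).2.2) := Poly.snd (Poly.snd hG)
  exact Poly.or (Poly.or ((Poly.decide_mem (Poly.pair hu hv) h1).congr fun _ =>
      decide_eq_decide.2 Iff.rfl) ((Poly.decide_mem (Poly.pair hv hu) h1).congr fun _ =>
      decide_eq_decide.2 Iff.rfl))
    (Poly.or ((Poly.decide_mem (Poly.pair hu hv) h2).congr fun _ =>
      decide_eq_decide.2 Iff.rfl) ((Poly.decide_mem (Poly.pair hv hu) h2).congr fun _ =>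
      decide_eq_decide.2 Iff.rfl))

theorem poly_instT : Poly instT := by
  have hS : Poly (fun G : Inst => G.2.1) := Poly.fst (Poly.snd Poly.id)
  have hL : Poly (fun G : Inst => G.2.2) := Poly.snd (Poly.snd Poly.id)
  have h1 : Poly (fun p : Inst × (ℕ × ℕ) => p.1.1) := Poly.fst (Poly.fst Poly.id)
  have h2 : Poly (fun p : Inst × (ℕ × ℕ) => p.1.2.2) :=
    Poly.snd (Poly.snd (Poly.fst Poly.id))
  have e1 : Poly (fun p : Inst × (ℕ × ℕ) => p.2.1) := Poly.fst (Poly.snd Poly.id)
  have e2 : Poly (fun p : Inst × (ℕ × ℕ) => p.2.2) := Poly.snd (Poly.snd Poly.id)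
  exact Poly.and (Poly.all (p := fun (G : Inst) (e : ℕ × ℕ) =>
      (decide (e.1 ∈ G.1) && decide (e.2 ∈ G.1)) && !decide (e.1 = e.2)) (Poly.append hS hL)
      (Poly.and (Poly.and (Poly.decide_mem e1 h1) (Poly.decide_mem e2 h1))
        (Poly.not (Poly.decide_eq e1 e2))))
    (Poly.all (p := fun (G : Inst) (e : ℕ × ℕ) =>
      !decide ((e.1, e.2) ∈ G.2.2) && !decide ((e.2, e.1) ∈ G.2.2)) hS
      (Poly.and (Poly.not ((Poly.decide_mem (Poly.pair e1 e2) h2).congr fun _ =>
        decide_eq_decide.2 Iff.rfl)) (Poly.not ((Poly.decide_mem (Poly.pair e2 e1) h2).congr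
        fun _ => decide_eq_decide.2 Iff.rfl))))

theorem poly_cbT0 : Poly (fun p : Inst × ℕ => cbT0 p.1 p.2) := by
  unfold cbT0
  have hV : Poly (fun p : Inst × ℕ => p.1.1) := Poly.fst (Poly.fst Poly.id)
  refine Poly.and (Poly.any (p := fun (p : Inst × ℕ) (w : ℕ) => adjT p.1 p.2 w) hV
    (poly_adjT (Poly.fst (Poly.fst Poly.id)) (Poly.snd (Poly.fst Poly.id)) (Poly.snd Poly.id))) ?_
  refine Poly.all (p := fun (p : Inst × ℕ) (u : ℕ) => p.1.1.all fun w =>
    !(adjT p.1 u w ^^ (adjT p.1 p.2 u ^^ adjT p.1 p.2 w))) hV ?_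
  refine Poly.all (p := fun (p : (Inst × ℕ) × ℕ) (w : ℕ) =>
    !(adjT p.1.1 p.2 w ^^ (adjT p.1.1 p.1.2 p.2 ^^ adjT p.1.1 p.1.2 w)))
    (hV.comp (Poly.fst Poly.id)) ?_
  have hG : Poly (fun q : ((Inst × ℕ) × ℕ) × ℕ => q.1.1.1) :=
    Poly.fst (Poly.fst (Poly.fst Poly.id))
  have hv : Poly (fun q : ((Inst × ℕ) × ℕ) × ℕ => q.1.1.2) :=
    Poly.snd (Poly.fst (Poly.fst Poly.id))
  have hu : Poly (fun q : ((Inst × ℕ) × ℕ) × ℕ => q.1.2) := Poly.snd (Poly.fst Poly.id)
  have hw : Poly (fun q : ((Inst × ℕ) × ℕ) × ℕ => q.2) := Poly.snd Poly.id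
  exact Poly.not (Poly.xor (poly_adjT hG hu hw)
    (Poly.xor (poly_adjT hG hv hu) (poly_adjT hG hv hw)))

theorem poly_cbT : Poly cbT := by
  have hV : Poly (fun G : Inst => G.1) := Poly.fst Poly.id
  refine (Poly.optCases (g := fun _ => false) (h := fun G v => cbT0 G v) (Poly.head? hV)
    (Poly.const false) poly_cbT0).congr fun G => ?_
  unfold cbT
  cases G.1.head? <;> rfl

theorem poly_form : Poly form := by
  unfold form
  exact Poly.ite (Poly.decide_bool (Poly.and poly_instT poly_cbT)) (poly_conj poly_conds)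
    (Poly.const _)

end

/-- The problem belongs to `∃ℝ`. -/
theorem ls_mem : InER (lang fun G : Inst => IsInst G ∧ IsCompleteBipartite G ∧ Realizable G) :=
  InER.of_poly poly_form form_correct

end Pool.Agent.NPC.L7h65.LS
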